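import Mathlib

namespace Pool.Agent.Results.MP_3923f3_nt.LowerBound

/-- admissible quadruples -/
def Admissible (a b c d : ℤ) : Prop :=
  a ≠ 0 ∧ b ≠ 0 ∧ c ≠ 0 ∧ ¬ (0 < a ∧ 0 < b ∧ 0 < c) ∧ ¬ (a < 0 ∧ b < 0 ∧ c < 0) ∧
    Even (a + b + c - d) ∧ gcd (gcd a b) c = 1 ∧ gcd (gcd d a) b = 1 ∧
    gcd (gcd d a) c = 1 ∧ gcd (gcd d b) c = 1

/-- good exponents -/
def Good (μ : ℝ) : Prop :=
  ∀ a b c d : ℤ, Admissible a b c d → ∃ p q r : ℕ, p.Prime ∧ q.Prime ∧ r.Prime ∧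
    a * p + b * q + c * r = d ∧
    ((max p (max q r) : ℕ) : ℝ) ≤
      3 * ((|d| : ℤ) : ℝ) + ((max 3 (max |a| (max |b| |c|)) : ℤ) : ℝ) ^ μ

theorem result : ∀ μ : ℝ, Good μ → Real.log 13 / Real.log 3 ≤ μ := by
  intro μ h
  obtain ⟨p, q, r, hp, hq, hr, he, hb⟩ := h 2 3 (-1) 0 (by
    refine ⟨by decide, by decide, by decide, by decide, by decide, by decide, ?_, ?_, ?_, ?_⟩ <;>
      decide)
  have h13 : 13 ≤ r := by
    have h2 := hp.two_le
    have h3 := hq.two_le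
    have he' : 2 * p + 3 * q = r := by omega
    by_contra hlt
    have hr' : r = 10 ∨ r = 11 ∨ r = 12 := by omega
    rcases hr' with rfl | rfl | rfl
    · norm_num at hr
    · omega
    · norm_num at hr
  have h1 : (13 : ℝ) ≤ ((max p (max q r) : ℕ) : ℝ) := by
    exact_mod_cast h13.trans ((le_max_right q r).trans (le_max_right _ _))
  have e : ((max 3 (max |(2 : ℤ)| (max |(3 : ℤ)| |(-1 : ℤ)|)) : ℤ) : ℝ) = 3 := by norm_num
  rw [e] at hb
  have h2 : (13 : ℝ) ≤ 3 ^ μ := by simpa using h1.trans hb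
  rw [div_le_iff₀ (Real.log_pos (by norm_num)), ← Real.log_rpow (by norm_num)]
  exact Real.log_le_log (by norm_num) h2

end Pool.Agent.Results.MP_3923f3_nt.LowerBound
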